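import Pool.Agent.TH892.FullBox4

set_option autoImplicit false

/-!
Bateman-Horn for almost all polynomials of height at most `H`: all windows.
-/

namespace Pool.Agent.N718.BHB

open Finset Polynomial Filter
open Pool.Agent.H442R2.EHI (evt_log_pow evt_log_ge)
open Pool.Agent.H300R2.BH
open Pool.Agent.H300R2.FB
open Pool.Agent.TH892

/-- the conclusion for one polynomial -/
def GoodB (ε : ℝ) (U B H z : ℕ) (F : ℤ[X]) : Prop :=
  ∀ u v : ℕ, u ≤ v → (H : ℝ) ^ ε ≤ v → (v : ℝ) * Real.log H ^ B ≤ H →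
    |(pa F v - pa F u) - SS z F * (la F v - la F u)| ≤ v / Real.log H ^ U ∧
    ((∀ p : ℕ, p.Prime → p ≤ z → rho F p ≠ p) →
      |(pa F v - pa F u) - SS z F * (la F v - la F u)| ≤ SS z F * la F v / Real.log H ^ U)

lemma pa_nonneg (F : ℤ[X]) (K : ℕ) : 0 ≤ pa F K := by unfold pa; positivity

lemma pa_le (F : ℤ[X]) (K : ℕ) : pa F K ≤ K := by
  unfold pa
  have h := card_filter_le (Icc 1 K) (fun k : ℕ => (F.eval (k : ℤ)).natAbs.Prime)
  rw [Nat.card_Icc, Nat.add_sub_cancel] at h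
  exact_mod_cast h

lemma la_zero (F : ℤ[X]) : la F 0 = 0 := by unfold la; simp

lemma la_bounds (F : ℤ[X]) (K : ℕ) : 0 ≤ la F K ∧ la F K ≤ 2 * K := by
  have h := la_diff F (Nat.zero_le K)
  rw [la_zero] at h
  simpa using h

/-- a polynomial with a fixed prime divisor: the product vanishes, few prime values -/
lemma fixed_prime {j H : ℕ} (hj : 1 ≤ j) {c : Fin (j + 1) → ℤ} (hc : c ∈ box j H) {z p : ℕ}
    (hp : p.Prime) (hpz : p ≤ z) (h : rho (pol c) p = p) (v : ℕ) :
    SS z (pol c) = 0 ∧ pa (pol c) v ≤ 2 * j := by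
  classical
  constructor
  · unfold SS
    apply prod_eq_zero (i := p)
    · rw [mem_filter, mem_Icc]
      exact ⟨⟨hp.one_lt.le, hpz⟩, hp⟩
    · rw [h, div_self (by exact_mod_cast hp.ne_zero)]
      simp
  · have hall : ∀ n : ℤ, (p : ℤ) ∣ (pol c).eval n := by
      unfold rho at h
      have h1 : (range p).filter (fun k : ℕ => (p : ℤ) ∣ (pol c).eval (k : ℤ)) = range p := by
        apply eq_of_subset_of_card_le (filter_subset _ _)
        rw [h, card_range]
      intro n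
      have hp0 : (p : ℤ) ≠ 0 := by exact_mod_cast hp.ne_zero
      have h2 : 0 ≤ n % (p : ℤ) := Int.emod_nonneg _ hp0
      have h3 : n % (p : ℤ) < p := Int.emod_lt_of_pos _ (by exact_mod_cast hp.pos)
      have h4 : (n % (p : ℤ)).toNat ∈ range p := by rw [mem_range]; omega
      rw [← h1, mem_filter] at h4
      have h5 := h4.2
      rw [Int.toNat_of_nonneg h2] at h5
      have h6 : (n - n % (p : ℤ)) ∣ (pol c).eval n - (pol c).eval (n % (p : ℤ)) :=
        Polynomial.sub_dvd_eval_sub _ _ _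
      have h7 : (p : ℤ) ∣ n - n % (p : ℤ) := Int.dvd_self_sub_emod
      exact (dvd_sub_left h5).1 (h7.trans h6)
    unfold pa
    have hsub : (Icc 1 v).filter (fun k : ℕ => ((pol c).eval (k : ℤ)).natAbs.Prime) ⊆
        (Icc 1 v).filter (fun n : ℕ => (pol c).eval (n : ℤ) = (p : ℤ)) ∪
        (Icc 1 v).filter (fun n : ℕ => (pol c).eval (n : ℤ) = -(p : ℤ)) := by
      intro n hn
      rw [mem_filter] at hn
      rw [mem_union, mem_filter, mem_filter]
      have h1 := hall (n : ℤ)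
      rw [Int.natCast_dvd] at h1
      have h2 := (Nat.prime_dvd_prime_iff_eq hp hn.2).1 h1
      rcases Int.natAbs_eq ((pol c).eval (n : ℤ)) with h3 | h3
      · left; exact ⟨hn.1, by rw [h3, ← h2]⟩
      · right; exact ⟨hn.1, by rw [h3, ← h2]⟩
    have h1 := (card_le_card hsub).trans (card_union_le _ _)
    have h2 := card_eq_le hj hc (p : ℤ) v
    have h3 := card_eq_le hj hc (-(p : ℤ)) v
    have h4 : ((Icc 1 v).filter (fun k : ℕ => ((pol c).eval (k : ℤ)).natAbs.Prime)).card ≤ 2 * j := by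
      omega
    exact_mod_cast h4

/-- lower bound for the main term -/
lemma main_lower (j : ℕ) (hj : 1 ≤ j) (E : ℕ) (hE : 1 ≤ E) : ∃ H0 : ℕ, ∀ H : ℕ, H0 ≤ H →
    ∀ c ∈ box j H, (∀ p : ℕ, p.Prime → p ≤ ⌊Real.log H ^ E⌋₊ → rho (pol c) p ≠ p) →
    4 * (j + 2) / Real.log H ≤ SS ⌊Real.log H ^ E⌋₊ (pol c) ∧
    ∀ K : ℕ, K ≤ H → 6 * j ≤ K → 2 * K / Real.log H ^ 2 ≤ SS ⌊Real.log H ^ E⌋₊ (pol c) * la (pol c) K := by
  obtain ⟨x2, hSS⟩ := SS_small (E - 1)
  rw [show E - 1 + 1 = E by omega] at hSS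
  obtain ⟨c, hc, hSSl⟩ := SS_lower j hj
  have hlogs : ∀ᶠ x : ℕ in atTop, (E * Real.log (Real.log x)) ^ (2 * j) * (4 * (j + 2)) ≤
      c * Real.log x := by
    have h1 : (fun t : ℝ => Real.log t ^ (2 * j)) =o[atTop] fun t : ℝ => t :=
      Real.isLittleO_pow_log_id_atTop
    have h2 := h1.bound (show (0:ℝ) < c / ((4 * (j + 2)) * (1 + E) ^ (2 * j)) by positivity)
    have h3 := (Real.tendsto_log_atTop.comp (tendsto_natCast_atTop_atTop (R := ℝ))).eventually h2
    filter_upwards [h3, evt_log_ge (Real.exp 1)] with x hx hx2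
    simp only [Function.comp] at hx
    have ht0 : 0 < Real.log x := lt_of_lt_of_le (Real.exp_pos 1) hx2
    have hl : 1 ≤ Real.log (Real.log x) := by
      rw [Real.le_log_iff_exp_le ht0]; exact hx2
    rw [Real.norm_of_nonneg (by positivity), Real.norm_of_nonneg ht0.le] at hx
    calc (E * Real.log (Real.log x)) ^ (2 * j) * (4 * (j + 2))
        ≤ ((1 + E) * Real.log (Real.log x)) ^ (2 * j) * (4 * (j + 2)) := by
          gcongr
          linarith
      _ = ((4 * (j + 2)) * (1 + E) ^ (2 * j)) * Real.log (Real.log x) ^ (2 * j) := by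
          rw [mul_pow]; ring
      _ ≤ ((4 * (j + 2)) * (1 + E) ^ (2 * j)) * (c / ((4 * (j + 2)) * (1 + E) ^ (2 * j)) *
          Real.log x) := by gcongr
      _ = c * Real.log x := by field_simp
  have hev : ∀ᶠ H : ℕ in atTop, x2 ≤ H ∧ 8 ≤ Real.log H ∧ (j + 1) ≤ H ∧
      (E * Real.log (Real.log H)) ^ (2 * j) * (4 * (j + 2)) ≤ c * Real.log H := by
    filter_upwards [eventually_ge_atTop x2, evt_log_ge 8, eventually_ge_atTop (j + 1), hlogs]
      with H h1 h2 h3 h4
    exact ⟨h1, h2, h3, h4⟩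
  obtain ⟨H0, hH0⟩ := eventually_atTop.mp hev
  refine ⟨H0, fun H hH c0 hc0 hnf => ?_⟩
  obtain ⟨hx2, hL8, hjH, hll⟩ := hH0 H hH
  obtain ⟨hz3, hSSz⟩ := hSS H hx2
  set L := Real.log H with hLdef
  set z := ⌊L ^ E⌋₊ with hz
  have hL0 : 0 < L := by linarith
  have hs1 := hSSl z hz3 (pol c0) (pol_natDegree_le c0) hnf
  have hzle : (z:ℝ) ≤ L ^ E := Nat.floor_le (by positivity)
  have hzr : (3:ℝ) ≤ z := by exact_mod_cast hz3
  have hlogz : Real.log z ≤ E * Real.log L := by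
    rw [← Real.log_pow]
    exact Real.log_le_log (by linarith) hzle
  have hlogz0 : 0 < Real.log z := Real.log_pos (by linarith)
  have h3 : 4 * (j + 2) / L ≤ SS z (pol c0) := by
    refine le_trans ?_ hs1
    rw [div_le_div_iff₀ hL0 (by positivity)]
    calc 4 * ((j:ℝ) + 2) * Real.log z ^ (2 * j) ≤ 4 * (j + 2) * (E * Real.log L) ^ (2 * j) := by
          gcongr
      _ = (E * Real.log L) ^ (2 * j) * (4 * (j + 2)) := by ring
      _ ≤ c * L := hll
  refine ⟨h3, fun K hKH h6j => ?_⟩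
  have hla := la_lower j hj hjH hKH h6j hc0
  rw [← hLdef] at hla
  have hSS0 : 0 ≤ SS z (pol c0) := le_trans (by positivity) h3
  calc 2 * (K:ℝ) / L ^ 2 = (4 * (j + 2) / L) * (K / (2 * (j + 2) * L)) := by
        field_simp
        ring
    _ ≤ SS z (pol c0) * la (pol c0) K := by gcongr

theorem good_box (j : ℕ) (hj : 1 ≤ j) (ε : ℝ) (hε : 0 < ε) (U : ℕ) : ∃ E1 : ℕ, ∀ E : ℕ, E1 ≤ E →
    ∃ B H0 : ℕ, ∀ H : ℕ, H0 ≤ H → ∀ (P : (Fin (j + 1) → ℤ) → Prop) [DecidablePred P],
    (∀ c ∈ box j H, P c → ¬ GoodB ε U B H ⌊Real.log H ^ E⌋₊ (pol c)) →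
    (((box j H).filter P).card : ℝ) ≤ ((box j H).card : ℝ) / Real.log H ^ U := by
  classical
  obtain ⟨E1, hE1⟩ := exc_box j hj (ε / 2) (by positivity) (U + 4)
  refine ⟨E1 + 1, fun E hE => ?_⟩
  obtain ⟨B, x1, hb⟩ := hE1 E (by omega)
  obtain ⟨x2, hSS⟩ := SS_small (E - 1)
  rw [show E - 1 + 1 = E by omega] at hSS
  obtain ⟨x3, hml⟩ := main_lower j hj E (by omega)
  have hev : ∀ᶠ H : ℕ in atTop, x1 ≤ H ∧ x2 ≤ H ∧ x3 ≤ H ∧ 8 ≤ Real.log H ∧
      Real.log H ^ (U + 6) ≤ (H:ℝ) ^ (ε / 2) ∧ (1:ℝ) ≤ (H:ℝ) ^ (ε / 2) ∧ 6 * (j:ℝ) ≤ (H:ℝ) ^ (ε / 2) := by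
    filter_upwards [eventually_ge_atTop x1, eventually_ge_atTop x2, eventually_ge_atTop x3,
      evt_log_ge 8, evt_log_ge (6 * j), evt_log_pow (U + 6) (ε / 2) (by positivity),
      evt_log_pow 0 (ε / 2) (by positivity), evt_log_pow 1 (ε / 2) (by positivity)]
      with H h1 h2 h3 h4 h5 h6 h7 h8
    refine ⟨h1, h2, h3, h4, h6, by simpa using h7, ?_⟩
    rw [pow_one] at h8
    linarith
  obtain ⟨H0, hH0⟩ := eventually_atTop.mp hev
  refine ⟨B, H0, fun H hH P _ hP => ?_⟩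
  obtain ⟨hx1, hx2, hx3, hL8, hLU, hH1, hj6⟩ := hH0 H hH
  obtain ⟨hz3, hSSz⟩ := hSS H hx2
  have hml' := hml H hx3
  have hb' := hb H hx1 P
  set L := Real.log H with hLdef
  set z := ⌊L ^ E⌋₊ with hz
  have hL0 : 0 < L := by linarith
  have hL1 : 1 ≤ L := by linarith
  have hLp0 : ∀ n : ℕ, 0 < L ^ n := fun n => by positivity
  have hLp : ∀ n : ℕ, 1 ≤ L ^ n := fun n => one_le_pow₀ hL1
  have hbox0 : (0:ℝ) ≤ ((box j H).card : ℝ) := Nat.cast_nonneg _
  have hHε : (H:ℝ) ^ ε = (H:ℝ) ^ (ε / 2) * (H:ℝ) ^ (ε / 2) := by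
    have hH0 : (0:ℝ) ≤ H := Nat.cast_nonneg _
    rw [← Real.rpow_add_of_nonneg hH0 (by positivity) (by positivity)]
    congr 1
    ring
  refine (hb' ?_).trans ?_
  swap
  · apply div_le_div_of_nonneg_left hbox0 (hLp0 _)
    exact pow_le_pow_right₀ hL1 (by omega)
  intro c hc hPc
  have hng := hP c hc hPc
  by_contra hcon
  apply hng
  intro u v huv hv hvB
  have huvr : (u:ℝ) ≤ v := by exact_mod_cast huv
  have hu0 : (0:ℝ) ≤ u := Nat.cast_nonneg _
  have hv0 : (0:ℝ) ≤ v := Nat.cast_nonneg _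
  have hpu0 := pa_nonneg (pol c) u
  have hpu := pa_le (pol c) u
  have hlu := la_bounds (pol c) u
  have hlv := la_bounds (pol c) v
  have hpm := pa_mono (pol c) huv
  have hld := la_diff (pol c) huv
  have hSc := hSSz (pol c)
  by_cases hnf : ∀ p : ℕ, p.Prime → p ≤ z → rho (pol c) p ≠ p
  · have hK : ∀ K : ℕ, (H:ℝ) ^ (ε / 2) ≤ K → (K:ℝ) * L ^ B ≤ H →
        |pa (pol c) K - SS z (pol c) * la (pol c) K| ≤ SS z (pol c) * la (pol c) K / L ^ (U + 4) := by
      intro K hK1 hK2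
      by_contra hlt
      push Not at hlt
      exact hcon ⟨hnf, K, hK1, hK2, hlt⟩
    have hvε : (H:ℝ) ^ (ε / 2) ≤ v := by
      refine le_trans ?_ hv
      rw [hHε]
      exact le_mul_of_one_le_right (by positivity) hH1
    have hvK := hK v hvε hvB
    have hvH : v ≤ H := by
      have : (v:ℝ) ≤ H := by
        calc (v:ℝ) ≤ v * L ^ B := le_mul_of_one_le_right hv0 (hLp _)
          _ ≤ H := hvB
      exact_mod_cast this
    have hv6 : 6 * j ≤ v := by
      have : 6 * (j:ℝ) ≤ v := hj6.trans hvε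
      exact_mod_cast this
    have hlow := (hml' c hc hnf).2 v hvH hv6
    set M := SS z (pol c) * la (pol c) v with hM
    have hM0 : 0 ≤ M := mul_nonneg hSc.1 hlv.1
    have hMle : M ≤ 2 * L * v := by
      calc M ≤ L * (2 * v) := mul_le_mul hSc.2 hlv.2 hlv.1 hL0.le
        _ = _ := by ring
    -- error at `u`
    have hUerr : |pa (pol c) u - SS z (pol c) * la (pol c) u| ≤ M / L ^ (U + 2) / 2 := by
      rcases le_or_gt ((H:ℝ) ^ (ε / 2)) u with h | h
      · have huB : (u:ℝ) * L ^ B ≤ H := (mul_le_mul_of_nonneg_right huvr (hLp0 _).le).trans hvB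
        refine (hK u h huB).trans ?_
        have h1 : SS z (pol c) * la (pol c) u ≤ M := by
          rw [hM]
          apply mul_le_mul_of_nonneg_left _ hSc.1
          linarith [hld.1]
        rw [div_div, show U + 4 = U + 2 + 2 by ring, pow_add L (U + 2) 2]
        apply div_le_div₀ hM0 h1 (by positivity)
        have h2 : (2:ℝ) ≤ L ^ 2 := by nlinarith
        exact mul_le_mul_of_nonneg_left h2 (hLp0 _).le
      · have h1 : |pa (pol c) u - SS z (pol c) * la (pol c) u| ≤ u + 2 * L * u := by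
          have h3 : SS z (pol c) * la (pol c) u ≤ L * (2 * u) := mul_le_mul hSc.2 hlu.2 hlu.1 hL0.le
          have h4 : 0 ≤ SS z (pol c) * la (pol c) u := mul_nonneg hSc.1 hlu.1
          rw [abs_le]
          constructor <;> nlinarith
        refine h1.trans ?_
        have h2 : (v:ℝ) / L ^ (U + 5) ≤ M / L ^ (U + 2) / 2 / L := by
          rw [div_div, div_div, div_le_div_iff₀ (hLp0 _) (by positivity)]
          have h3 : (v:ℝ) * 2 ≤ M * L ^ 2 := by
            rw [div_le_iff₀ (by positivity)] at hlow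
            linarith
          calc (v:ℝ) * (L ^ (U + 2) * (2 * L)) = (v * 2) * L ^ (U + 3) := by ring
            _ ≤ (M * L ^ 2) * L ^ (U + 3) := by gcongr
            _ = M * L ^ (U + 5) := by ring
        have h3 : u * L ^ (U + 6) ≤ v := by
          calc u * L ^ (U + 6) ≤ (H:ℝ) ^ (ε / 2) * (H:ℝ) ^ (ε / 2) := by gcongr
            _ = (H:ℝ) ^ ε := hHε.symm
            _ ≤ v := hv
        have h4 : (u:ℝ) * L ≤ v / L ^ (U + 5) := by
          rw [le_div_iff₀ (hLp0 _)]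
          calc (u:ℝ) * L * L ^ (U + 5) = u * L ^ (U + 6) := by ring
            _ ≤ v := h3
        have h5 : (u:ℝ) + 2 * L * u ≤ (u * L) * L := by
          have h6 : 1 + 2 * L ≤ L * L := by nlinarith
          calc (u:ℝ) + 2 * L * u = u * (1 + 2 * L) := by ring
            _ ≤ u * (L * L) := mul_le_mul_of_nonneg_left h6 hu0
            _ = _ := by ring
        calc (u:ℝ) + 2 * L * u ≤ (u * L) * L := h5
          _ ≤ (v / L ^ (U + 5)) * L := by gcongr
          _ ≤ (M / L ^ (U + 2) / 2 / L) * L := by gcongr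
          _ = M / L ^ (U + 2) / 2 := by field_simp
    have hVerr : |pa (pol c) v - SS z (pol c) * la (pol c) v| ≤ M / L ^ (U + 2) / 2 := by
      refine hvK.trans ?_
      rw [div_div, show U + 4 = U + 2 + 2 by ring, pow_add L (U + 2) 2]
      apply div_le_div₀ hM0 le_rfl (by positivity)
      have h2 : (2:ℝ) ≤ L ^ 2 := by nlinarith
      exact mul_le_mul_of_nonneg_left h2 (hLp0 _).le
    have htot : |(pa (pol c) v - pa (pol c) u) - SS z (pol c) * (la (pol c) v - la (pol c) u)| ≤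
        M / L ^ (U + 2) := by
      have he : (pa (pol c) v - pa (pol c) u) - SS z (pol c) * (la (pol c) v - la (pol c) u) =
          (pa (pol c) v - SS z (pol c) * la (pol c) v) - (pa (pol c) u - SS z (pol c) * la (pol c) u) := by
        ring
      rw [he]
      refine (abs_sub _ _).trans ?_
      linarith
    constructor
    · refine htot.trans ?_
      rw [div_le_div_iff₀ (hLp0 _) (hLp0 _)]
      have h7 : 2 * L * v ≤ v * L ^ 2 := by
        have h8 : 2 * L ≤ L ^ 2 := by nlinarith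
        calc 2 * L * v = v * (2 * L) := by ring
          _ ≤ v * L ^ 2 := mul_le_mul_of_nonneg_left h8 hv0
      calc M * L ^ U ≤ (v * L ^ 2) * L ^ U := by gcongr; exact hMle.trans h7
        _ = v * L ^ (U + 2) := by ring
    · intro _
      refine htot.trans ?_
      apply div_le_div_of_nonneg_left hM0 (hLp0 _)
      exact pow_le_pow_right₀ hL1 (by omega)
  · refine ⟨?_, fun h => absurd h hnf⟩
    push Not at hnf
    obtain ⟨p, hp, hpz, hrho⟩ := hnf
    obtain ⟨hS0, hpa⟩ := fixed_prime hj hc hp hpz hrho v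
    rw [hS0, zero_mul, sub_zero, abs_of_nonneg (by linarith)]
    rw [le_div_iff₀ (hLp0 _)]
    have h1 : pa (pol c) v - pa (pol c) u ≤ 6 * j := by linarith
    calc (pa (pol c) v - pa (pol c) u) * L ^ U ≤ (6 * j) * L ^ (U + 6) := by
          apply mul_le_mul h1 _ (hLp0 _).le (by positivity)
          exact pow_le_pow_right₀ hL1 (by omega)
      _ ≤ (H:ℝ) ^ (ε / 2) * (H:ℝ) ^ (ε / 2) := by gcongr
      _ = (H:ℝ) ^ ε := hHε.symm
      _ ≤ v := hv

end Pool.Agent.N718.BHB
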