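import Pool.Agent.N718.BHB
import Pool.Agent.TH892.CF3

set_option autoImplicit false

/-!
The Hardy-Littlewood formula for almost all quadratic polynomials of height at most `H`.
-/

namespace Pool.Agent.N718.HLQ

open Finset Polynomial Filter Topology
open Pool.Agent.H442R2.EHI (evt_log_pow evt_log_ge)
open Pool.Agent.H300R2.BH
open Pool.Agent.H300R2.FB
open Pool.Agent.TH892
open Pool.Agent.W468.ConjF (CF Admissible CF_pos CF_tendsto nr nr_two nr_none nr_lin nr_odd euler_eq)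
open Pool.Agent.N718.BHB

/-- the vector of coefficients of `a X² + b X + c` -/
def vec (t : ℤ × ℤ × ℤ) : Fin (2 + 1) → ℤ := ![t.2.2, t.2.1, t.1]

lemma eval_vec (t : ℤ × ℤ × ℤ) (n : ℤ) :
    (pol (vec t)).eval n = t.1 * n ^ 2 + t.2.1 * n + t.2.2 := by
  rw [pol_eval, Fin.sum_univ_three]
  simp [vec]
  ring

lemma pol_vec (t : ℤ × ℤ × ℤ) : pol (vec t) = Pool.Agent.W468.ConjF.P t.1 t.2.1 t.2.2 := by
  unfold pol Pool.Agent.W468.ConjF.P
  rw [Fin.sum_univ_three]
  simp [vec]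
  ring

lemma vec_mem {H : ℕ} {t : ℤ × ℤ × ℤ} (ht : t ∈ Tr H) : vec t ∈ TH892.box 2 H := by
  rw [mem_Tr] at ht
  unfold TH892.box
  rw [Fintype.mem_piFinset]
  intro i
  fin_cases i
  · simp [vec]; omega
  · simp [vec]; omega
  · simp [vec]; omega

lemma card_box2 (H : ℕ) : ((TH892.box 2 H).card : ℝ) = (#(Tr H) : ℝ) := by
  rw [card_Tr]
  unfold TH892.box
  rw [Fintype.card_piFinset, Fin.prod_univ_three]
  have h1 : ((H : ℤ) + 1 + (H : ℤ)).toNat = 2 * H + 1 := by omega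
  simp
  rw [h1]
  push_cast
  ring

lemma nr_eq (t : ℤ × ℤ × ℤ) (p : ℕ) : rho (pol (vec t)) p = nr t.1 t.2.1 t.2.2 p := by
  unfold rho nr
  simp only [eval_vec]

/-- twice the constant of Conjecture F -/
lemma SS_eq (t : ℤ × ℤ × ℤ) (h : Admissible t.1 t.2.1 t.2.2) (z : ℕ) (hz : 2 ≤ z) :
    SS z (pol (vec t)) = 2 * CF t.1 t.2.1 t.2.2 z := by
  classical
  rw [← euler_eq t.1 t.2.1 t.2.2 h z hz (fun _ : Fin 1 => Pool.Agent.W468.ConjF.P t.1 t.2.1 t.2.2) (fun _ => rfl)]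
  unfold SS Pool.Agent.H373R2.BH.eulerProduct
  have h1 : (Icc 1 z).filter Nat.Prime = (range (z + 1)).filter Nat.Prime := by
    ext p
    rw [mem_filter, mem_filter, mem_Icc, mem_range]
    constructor
    · rintro ⟨h1, h2⟩; exact ⟨by omega, h2⟩
    · rintro ⟨h1, h2⟩; exact ⟨⟨h2.one_lt.le, by omega⟩, h2⟩
  rw [h1]
  refine prod_congr rfl fun p _ => ?_
  have h2 : Pool.Agent.H373R2.BH.omegaP (fun _ : Fin 1 => Pool.Agent.W468.ConjF.P t.1 t.2.1 t.2.2) p =
      rho (pol (vec t)) p := by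
    unfold Pool.Agent.H373R2.BH.omegaP rho
    rw [pol_vec]
    congr 1
    apply filter_congr
    intro r _
    simp
  rw [h2, pow_one, div_eq_inv_mul]

/-- an admissible polynomial has no fixed prime divisor -/
lemma rho_ne (t : ℤ × ℤ × ℤ) (h : Admissible t.1 t.2.1 t.2.2) (p : ℕ) (hp : p.Prime) :
    rho (pol (vec t)) p ≠ p := by
  obtain ⟨ha, hg, h2, -⟩ := h
  rw [nr_eq]
  have hp2 := hp.two_le
  rcases eq_or_lt_of_le hp2 with h3 | h3
  · rw [← h3, nr_two _ _ _ h2]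
    split_ifs <;> norm_num
  · by_cases hpa : (p : ℤ) ∣ t.1
    · by_cases hpb : (p : ℤ) ∣ t.2.1
      · have hpc : ¬ (p : ℤ) ∣ t.2.2 := by
          intro hpc
          have h4 := hg _ hpa hpb hpc
          rw [Int.isUnit_iff] at h4
          omega
        rw [nr_none _ _ _ _ hpa hpb hpc]
        omega
      · rw [nr_lin _ _ _ _ hp hpa hpb]
        omega
    · have h4 := nr_odd t.1 t.2.1 t.2.2 p hp (by omega) hpa
      intro h5
      rw [h5] at h4
      have h6 : jacobiSym (t.2.1 ^ 2 - 4 * t.1 * t.2.2) p ≤ 1 := by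
        rcases jacobiSym.trichotomy (t.2.1 ^ 2 - 4 * t.1 * t.2.2) p with h7 | h7 | h7 <;> rw [h7] <;> norm_num
      omega

end Pool.Agent.N718.HLQ
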