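import Pool.Agent.N718.HLQ

set_option autoImplicit false

/-!
The Hardy-Littlewood formula for almost all quadratic polynomials of height at most `H`: the exceptional set.
-/

namespace Pool.Agent.N718.HLQ

open Finset Polynomial Filter Topology
open Pool.Agent.H442R2.EHI (evt_log_pow evt_log_ge)
open Pool.Agent.H300R2.BH
open Pool.Agent.H300R2.FB
open Pool.Agent.TH892
open Pool.Agent.W468.ConjF (CF Admissible CF_pos CF_tendsto nr nr_two nr_none nr_lin nr_odd euler_eq)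
open Pool.Agent.N718.BHB

/-- the final estimate for one polynomial -/
lemma final_ineq (L S K pv pa la lF K1 y : ℝ) (U V : ℕ) (hL : 16 ≤ L) (hS0 : 16 / L ≤ S) (hS1 : S ≤ L)
    (hK : 0 < K) (hSK : |S - 2 * K| ≤ 2 * (1 / L ^ (V + 5)) * (2 * K))
    (h1 : |pa - S * la| ≤ S * la / L ^ (V + 5)) (hpv : |pa - pv| ≤ K1) (hl0 : 0 ≤ la - lF)
    (hl1 : la - lF ≤ 2 * K1) (hK1 : 0 ≤ K1) (hK1' : K1 ≤ 2 * L ^ (U + 2)) (hlow : 2 * y / L ^ 2 ≤ S * la)
    (hla : 0 ≤ la) (hy : L ^ (U + V + 12) ≤ y) :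
    y / L ^ 2 / 2 ≤ 2 * K * lF ∧ 8 / L ≤ 2 * K ∧ 2 * K ≤ 2 * L ∧ |pv - 2 * K * lF| ≤ 2 * K * lF / L ^ V := by
  have hL0 : 0 < L := by linarith
  have hL1 : 1 ≤ L := by linarith
  have hLp0 : ∀ n : ℕ, 0 < L ^ n := fun n => by positivity
  have hLp : ∀ n : ℕ, 1 ≤ L ^ n := fun n => one_le_pow₀ hL1
  have hL5 : (16:ℝ) ≤ L ^ (V + 5) := by
    calc (16:ℝ) ≤ L := hL
      _ = L ^ 1 := (pow_one L).symm
      _ ≤ L ^ (V + 5) := pow_le_pow_right₀ hL1 (by omega)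
  have hθ : 1 / L ^ (V + 5) ≤ 1 / 16 := one_div_le_one_div_of_le (by norm_num) hL5
  have hθ0 : 0 < 1 / L ^ (V + 5) := by positivity
  have hS : 0 < S := lt_of_lt_of_le (by positivity) hS0
  have hSK' := abs_le.1 hSK
  have hb : 2 * (1 / L ^ (V + 5)) * (2 * K) ≤ 2 * K / 8 := by nlinarith
  have hS2 : S ≤ 2 * (2 * K) := by linarith
  have hS3 : 2 * K ≤ 2 * S := by linarith
  have hK8 : 8 / L ≤ 2 * K := by
    have : 8 / L = 16 / L / 2 := by ring
    rw [this]; linarith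
  have hKL : 2 * K ≤ 2 * L := by linarith
  -- the main term
  set M := 2 * K * la with hM
  have hM0 : 0 ≤ M := by positivity
  have hMS : S * la ≤ 2 * M := by rw [hM]; nlinarith
  have hMy : y / L ^ 2 ≤ M := by
    have : 2 * y / L ^ 2 = 2 * (y / L ^ 2) := by ring
    rw [this] at hlow
    linarith
  have hy0 : 0 ≤ y := (hLp0 _).le.trans hy
  -- `K1`
  have hy2 : L ^ (U + V + 10) ≤ y / L ^ 2 := by
    rw [le_div_iff₀ (hLp0 _), ← pow_add]
    exact hy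
  have hbig : K1 * (1 + 4 * L) * L ^ (V + 1) ≤ y / L ^ 2 / 8 := by
    have e1 : (8:ℝ) * 2 * (1 + 4 * L) ≤ L ^ 3 := by nlinarith [sq_nonneg (L - 16)]
    calc K1 * (1 + 4 * L) * L ^ (V + 1) ≤ (2 * L ^ (U + 2)) * (1 + 4 * L) * L ^ (V + 1) := by gcongr
      _ = (8 * 2 * (1 + 4 * L)) * L ^ (U + V + 3) / 8 := by ring
      _ ≤ L ^ 3 * L ^ (U + V + 3) / 8 := by gcongr
      _ = L ^ (U + V + 6) / 8 := by ring
      _ ≤ L ^ (U + V + 10) / 8 := by
          have := pow_le_pow_right₀ hL1 (show U + V + 6 ≤ U + V + 10 by omega)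
          linarith
      _ ≤ y / L ^ 2 / 8 := by linarith
  have hbig1 : K1 * (1 + 4 * L) ≤ y / L ^ 2 / 8 := by
    refine le_trans ?_ hbig
    exact le_mul_of_one_le_right (by positivity) (hLp _)
  have hlF : M / 2 ≤ 2 * K * lF := by
    have h2 : 2 * K * lF = M - 2 * K * (la - lF) := by rw [hM]; ring
    have h3 : 2 * K * (la - lF) ≤ 2 * L * (2 * K1) := mul_le_mul hKL hl1 hl0 (by positivity)
    rw [h2]
    nlinarith
  refine ⟨by linarith, hK8, hKL, ?_⟩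
  have h4 : pv - 2 * K * lF = (pv - pa) + (pa - S * la) + (S - 2 * K) * la + 2 * K * (la - lF) := by ring
  have h5 : |(S - 2 * K) * la| ≤ 2 * (1 / L ^ (V + 5)) * M := by
    rw [abs_mul, abs_of_nonneg hla]
    calc |S - 2 * K| * la ≤ (2 * (1 / L ^ (V + 5)) * (2 * K)) * la := by gcongr
      _ = _ := by rw [hM]; ring
  have h6 : |2 * K * (la - lF)| ≤ 2 * L * (2 * K1) := by
    rw [abs_of_nonneg (by positivity)]
    exact mul_le_mul hKL hl1 hl0 (by positivity)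
  have h7 : |pv - pa| ≤ K1 := by rw [abs_sub_comm]; exact hpv
  have h8 : |pa - S * la| ≤ 2 * (1 / L ^ (V + 5)) * M := by
    refine h1.trans ?_
    rw [div_eq_mul_one_div]
    calc S * la * (1 / L ^ (V + 5)) ≤ (2 * M) * (1 / L ^ (V + 5)) := by gcongr
      _ = _ := by ring
  have h9 : |pv - 2 * K * lF| ≤ K1 * (1 + 4 * L) + 4 * (1 / L ^ (V + 5)) * M := by
    rw [h4]
    calc _ ≤ |pv - pa| + |pa - S * la| + |(S - 2 * K) * la| + |2 * K * (la - lF)| := by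
          refine (abs_add_le _ _).trans ?_
          gcongr
          refine (abs_add_le _ _).trans ?_
          gcongr
          exact abs_add_le _ _
      _ ≤ K1 + 2 * (1 / L ^ (V + 5)) * M + 2 * (1 / L ^ (V + 5)) * M + 2 * L * (2 * K1) := by gcongr
      _ = _ := by ring
  have h10 : K1 * (1 + 4 * L) ≤ M / 4 / L ^ V := by
    rw [le_div_iff₀ (hLp0 _)]
    have hVV : L ^ V ≤ L ^ (V + 1) := pow_le_pow_right₀ hL1 (by omega)
    calc K1 * (1 + 4 * L) * L ^ V ≤ K1 * (1 + 4 * L) * L ^ (V + 1) := by gcongr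
      _ ≤ y / L ^ 2 / 8 := hbig
      _ ≤ M / 4 := by linarith
  have h11 : 4 * (1 / L ^ (V + 5)) * M ≤ M / 4 / L ^ V := by
    rw [le_div_iff₀ (hLp0 _), pow_add]
    have h12 : 4 * (1 / (L ^ V * L ^ 5)) * M * L ^ V = 4 * M / L ^ 5 := by field_simp
    rw [h12, div_le_iff₀ (hLp0 _)]
    have h13 : (16:ℝ) ≤ L ^ 5 := by
      calc (16:ℝ) ≤ L := hL
        _ = L ^ 1 := (pow_one L).symm
        _ ≤ L ^ 5 := pow_le_pow_right₀ hL1 (by omega)
    nlinarith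
  calc |pv - 2 * K * lF| ≤ M / 4 / L ^ V + M / 4 / L ^ V := by linarith
    _ = (M / 2) / L ^ V := by ring
    _ ≤ 2 * K * lF / L ^ V := by gcongr

/-- the conclusion for one polynomial, in terms of `CF` -/
def GoodQ (ε : ℝ) (U V B H : ℕ) (t : ℤ × ℤ × ℤ) : Prop :=
  (H : ℝ) ≤ t.1 * Real.log H ^ (U + 2) ∧ ∃ K : ℝ, 0 < K ∧ Tendsto (fun z => CF t.1 t.2.1 t.2.2 z) atTop (𝓝 K) ∧
    8 / Real.log H ≤ 2 * K ∧ 2 * K ≤ 2 * Real.log H ∧
    ∀ y : ℕ, (H : ℝ) ^ ε ≤ y → (y : ℝ) * Real.log H ^ B ≤ H →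
      y / Real.log H ^ 2 / 2 ≤ 2 * K * lF (pol (vec t)) y ∧
      |pv (pol (vec t)) y - 2 * K * lF (pol (vec t)) y| ≤ 2 * K * lF (pol (vec t)) y / Real.log H ^ V

theorem quad_box (ε : ℝ) (hε : 0 < ε) (U V : ℕ) : ∃ B H0 : ℕ, ∀ H : ℕ, H0 ≤ H →
    ∃ X : Finset (ℤ × ℤ × ℤ), X ⊆ Tr H ∧ (#X : ℝ) ≤ (#(Tr H) : ℝ) / Real.log H ^ U ∧
    ∀ t ∈ Tr H, t ∉ X → Admissible t.1 t.2.1 t.2.2 → GoodQ ε U V B H t := by
  classical
  set W : ℕ := U + V + 5 with hW
  obtain ⟨E1, h1⟩ := good_box 2 (by norm_num) ε hε W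
  obtain ⟨E2, h2⟩ := CF_box (U + 1) (V + 5)
  set E := E1 + E2 + 1 with hE
  obtain ⟨B, x1, hb⟩ := h1 E (by omega)
  obtain ⟨x2, hc⟩ := h2 E (by omega)
  obtain ⟨x3, hSS⟩ := SS_small (E - 1)
  rw [show E - 1 + 1 = E by omega] at hSS
  obtain ⟨x4, hml⟩ := main_lower 2 (by norm_num) E (by omega)
  have hev : ∀ᶠ H : ℕ in atTop, x1 ≤ H ∧ x2 ≤ H ∧ x3 ≤ H ∧ x4 ≤ H ∧ 16 ≤ Real.log H ∧
      Real.log H ^ (U + V + 12) ≤ (H:ℝ) ^ ε ∧ (12:ℝ) ≤ (H:ℝ) ^ ε ∧ Real.log H ^ (U + 1) ≤ (H:ℝ) ^ (1:ℝ) := by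
    filter_upwards [eventually_ge_atTop x1, eventually_ge_atTop x2, eventually_ge_atTop x3, eventually_ge_atTop x4,
      evt_log_ge 16, evt_log_pow (U + V + 12) ε hε, evt_log_pow 1 ε hε, evt_log_pow (U + 1) 1 one_pos]
      with H h1 h2 h3 h4 h5 h6 h7 h8
    refine ⟨h1, h2, h3, h4, h5, h6, ?_, h8⟩
    rw [pow_one] at h7
    linarith
  obtain ⟨H0, hH0⟩ := eventually_atTop.mp hev
  refine ⟨B, H0, fun H hH => ?_⟩
  obtain ⟨hx1, hx2, hx3, hx4, hL16, hLε, h12, hLH⟩ := hH0 H hH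
  obtain ⟨hz3, hSSz⟩ := hSS H hx3
  have hml' := hml H hx4
  obtain ⟨X2, hX2s, hX2c, hX2⟩ := hc H hx2
  set P : (Fin (2 + 1) → ℤ) → Prop := fun c => ¬ GoodB ε W B H ⌊Real.log H ^ E⌋₊ (pol c) with hP
  have hPc := hb H hx1 P (fun c _ h => h)
  set L := Real.log H with hLdef
  set z := ⌊L ^ E⌋₊ with hz
  have hL0 : 0 < L := by linarith
  have hL1 : 1 ≤ L := by linarith
  have hLp0 : ∀ n : ℕ, 0 < L ^ n := fun n => by positivity
  have hLp : ∀ n : ℕ, 1 ≤ L ^ n := fun n => one_le_pow₀ hL1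
  rw [Real.rpow_one] at hLH
  have hHr : (1:ℝ) ≤ H := (hLp _).trans hLH
  have hHn : 1 ≤ H := by exact_mod_cast hHr
  have hTc := card_Tr H
  have hT0 : (0:ℝ) ≤ (#(Tr H) : ℝ) := Nat.cast_nonneg _
  -- the exceptional set
  set X1 : Finset (ℤ × ℤ × ℤ) := (Tr H).filter (fun t => P (vec t)) with hX1
  set X3 : Finset (ℤ × ℤ × ℤ) := Icc (1 : ℤ) H ×ˢ Icc (-(H : ℤ)) H ×ˢ {0} with hX3
  set X4 : Finset (ℤ × ℤ × ℤ) := (Tr H).filter (fun t => (t.1:ℝ) * L ^ (U + 2) < H) with hX4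
  have hc1 : (#X1 : ℝ) ≤ (#(Tr H) : ℝ) / L ^ (U + 1) := by
    have h3 : #X1 ≤ ((TH892.box 2 H).filter P).card := by
      apply card_le_card_of_injOn vec
      · intro t ht
        rw [hX1, coe_filter] at ht
        rw [coe_filter]
        exact ⟨vec_mem ht.1, ht.2⟩
      · intro t _ s _ hts
        have h4 := congrFun hts 0
        have h5 := congrFun hts 1
        have h6 := congrFun hts 2
        simp [vec] at h4 h5 h6
        exact Prod.ext h6 (Prod.ext h5 h4)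
    calc (#X1 : ℝ) ≤ (((TH892.box 2 H).filter P).card : ℝ) := by exact_mod_cast h3
      _ ≤ _ := hPc
      _ = (#(Tr H) : ℝ) / L ^ W := by rw [card_box2]
      _ ≤ (#(Tr H) : ℝ) / L ^ (U + 1) := by
          apply div_le_div_of_nonneg_left hT0 (hLp0 _)
          exact pow_le_pow_right₀ hL1 (by omega)
  have hc3 : (#X3 : ℝ) ≤ (#(Tr H) : ℝ) / L ^ (U + 1) := by
    have h3 : (#X3 : ℝ) = H * ((2 * H + 1 : ℕ) : ℝ) := by
      rw [hX3, card_product, card_product, card_singleton, Int.card_Icc, Int.card_Icc]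
      have e1 : ((H : ℤ) + 1 - 1).toNat = H := by omega
      have e2 : ((H : ℤ) + 1 - -(H : ℤ)).toNat = 2 * H + 1 := by omega
      rw [e1, e2]
      push_cast
      ring
    rw [h3, hTc, le_div_iff₀ (hLp0 _)]
    have h4 : L ^ (U + 1) ≤ ((2 * H + 1 : ℕ) : ℝ) := by
      push_cast
      linarith
    calc (H:ℝ) * ((2 * H + 1 : ℕ) : ℝ) * L ^ (U + 1) ≤ (H:ℝ) * ((2 * H + 1 : ℕ) : ℝ) * ((2 * H + 1 : ℕ) : ℝ) := by
          gcongr
      _ = _ := by ring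
  have hc4 : (#X4 : ℝ) ≤ (#(Tr H) : ℝ) / L ^ (U + 1) := by
    set A : ℕ := ⌊(H:ℝ) / L ^ (U + 2)⌋₊ with hA
    have h3 : X4 ⊆ Icc (1 : ℤ) A ×ˢ Icc (-(H : ℤ)) H ×ˢ Icc (-(H : ℤ)) H := by
      intro t ht
      rw [hX4, mem_filter, mem_Tr] at ht
      obtain ⟨⟨h5, h6, h7⟩, h8⟩ := ht
      rw [mem_product, mem_product, mem_Icc, mem_Icc, mem_Icc]
      refine ⟨⟨h5.1, ?_⟩, h6, h7⟩
      have h9 : (t.1 : ℝ) ≤ (H:ℝ) / L ^ (U + 2) := by
        rw [le_div_iff₀ (hLp0 _)]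
        exact h8.le
      have h10 : t.1.toNat ≤ A := by
        apply Nat.le_floor
        have : ((t.1.toNat : ℕ) : ℝ) = (t.1 : ℝ) := by
          have : ((t.1.toNat : ℕ) : ℤ) = t.1 := Int.toNat_of_nonneg (by omega)
          exact_mod_cast this
        rw [this]
        exact h9
      omega
    have h4 : (#X4 : ℝ) ≤ (A : ℝ) * ((2 * H + 1 : ℕ) : ℝ) ^ 2 := by
      have h5 := card_le_card h3
      rw [card_product, card_product, Int.card_Icc, Int.card_Icc] at h5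
      have e1 : ((A : ℤ) + 1 - 1).toNat = A := by omega
      have e2 : ((H : ℤ) + 1 - -(H : ℤ)).toNat = 2 * H + 1 := by omega
      rw [e1, e2] at h5
      calc (#X4 : ℝ) ≤ ((A * ((2 * H + 1) * (2 * H + 1)) : ℕ) : ℝ) := by exact_mod_cast h5
        _ = _ := by push_cast; ring
    have hAle : (A:ℝ) ≤ (H:ℝ) / L ^ (U + 2) := Nat.floor_le (by positivity)
    calc (#X4 : ℝ) ≤ (A : ℝ) * ((2 * H + 1 : ℕ) : ℝ) ^ 2 := h4
      _ ≤ ((H:ℝ) / L ^ (U + 2)) * ((2 * H + 1 : ℕ) : ℝ) ^ 2 := by gcongr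
      _ = (#(Tr H) : ℝ) / L ^ (U + 2) := by rw [hTc]; ring
      _ ≤ (#(Tr H) : ℝ) / L ^ (U + 1) := by
          apply div_le_div_of_nonneg_left hT0 (hLp0 _)
          exact pow_le_pow_right₀ hL1 (by omega)
  have hX3s : X3 ⊆ Tr H := by
    intro t ht
    rw [hX3, mem_product, mem_product, mem_Icc, mem_Icc, mem_singleton] at ht
    rw [mem_Tr]
    refine ⟨ht.1, ht.2.1, ?_⟩
    rw [ht.2.2]
    constructor <;> omega
  refine ⟨X1 ∪ X2 ∪ X3 ∪ X4, ?_, ?_, ?_⟩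
  · refine union_subset (union_subset (union_subset (filter_subset _ _) hX2s) hX3s) (filter_subset _ _)
  · have h5 : (#(X1 ∪ X2 ∪ X3 ∪ X4) : ℝ) ≤ #X1 + #X2 + #X3 + #X4 := by
      have h6 := card_union_le (X1 ∪ X2 ∪ X3) X4
      have h7 := card_union_le (X1 ∪ X2) X3
      have h8 := card_union_le X1 X2
      have h9 : #(X1 ∪ X2 ∪ X3 ∪ X4) ≤ #X1 + #X2 + #X3 + #X4 := by omega
      exact_mod_cast h9
    calc (#(X1 ∪ X2 ∪ X3 ∪ X4) : ℝ) ≤ #X1 + #X2 + #X3 + #X4 := h5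
      _ ≤ 4 * ((#(Tr H) : ℝ) / L ^ (U + 1)) := by linarith
      _ ≤ (#(Tr H) : ℝ) / L ^ U := by
          rw [pow_succ, ← mul_div_assoc, div_le_div_iff₀ (by positivity) (hLp0 _)]
          calc 4 * (#(Tr H) : ℝ) * L ^ U = (#(Tr H) : ℝ) * (L ^ U * 4) := by ring
            _ ≤ (#(Tr H) : ℝ) * (L ^ U * L) := by gcongr; linarith
  · intro t ht htX hadm
    rw [mem_union, mem_union, mem_union, not_or, not_or, not_or] at htX
    obtain ⟨⟨⟨ht1, ht2⟩, ht3⟩, ht4⟩ := htX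
    have hg1 : GoodB ε W B H z (pol (vec t)) := by
      by_contra hcon
      exact ht1 (by rw [hX1, mem_filter]; exact ⟨ht, hcon⟩)
    have hc0 : t.2.2 ≠ 0 := by
      intro h0
      apply ht3
      rw [mem_Tr] at ht
      rw [hX3, mem_product, mem_product, mem_Icc, mem_Icc, mem_singleton]
      exact ⟨ht.1, ht.2.1, h0⟩
    have haL : (H : ℝ) ≤ t.1 * L ^ (U + 2) := by
      by_contra hcon
      push Not at hcon
      exact ht4 (by rw [hX4, mem_filter]; exact ⟨ht, hcon⟩)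
    obtain ⟨K, hK0, hKlim⟩ := CF_tendsto t.1 t.2.1 t.2.2 hadm.1 hadm.2.2.2
    have hcf := hX2 t ht ht2 hc0 hadm.2.2.2
    have hcl := CF_limit t.1 t.2.1 t.2.2 K hK0 hKlim z (1 / L ^ (V + 5)) (by
      rw [div_le_one (hLp0 _)]; exact hLp _) hcf
    have hnf : ∀ p : ℕ, p.Prime → p ≤ z → rho (pol (vec t)) p ≠ p := fun p hp _ => rho_ne t hadm p hp
    have hvb := vec_mem ht
    obtain ⟨hSlow, hMlow⟩ := hml' (vec t) hvb hnf
    have hSup := hSSz (pol (vec t))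
    have hSe := SS_eq t hadm z (by omega)
    have hSd : |SS z (pol (vec t)) - 2 * K| ≤ 2 * (1 / L ^ (V + 5)) * (2 * K) := by
      rw [hSe, ← mul_sub, abs_mul, abs_of_pos (by norm_num : (0:ℝ) < 2)]
      calc 2 * |CF t.1 t.2.1 t.2.2 z - K| ≤ 2 * (2 * (1 / L ^ (V + 5)) * K) := by gcongr
        _ = _ := by ring
    have hS16 : 16 / L ≤ SS z (pol (vec t)) := by
      refine le_trans (le_of_eq ?_) hSlow
      norm_num
    have ha1 : 1 ≤ t.1 := by rw [mem_Tr] at ht; exact ht.1.1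
    -- the estimate for one `y`
    have key : ∀ y : ℕ, (H : ℝ) ^ ε ≤ y → (y : ℝ) * L ^ B ≤ H →
        y / L ^ 2 / 2 ≤ 2 * K * lF (pol (vec t)) y ∧ 8 / L ≤ 2 * K ∧ 2 * K ≤ 2 * L ∧
        |pv (pol (vec t)) y - 2 * K * lF (pol (vec t)) y| ≤ 2 * K * lF (pol (vec t)) y / L ^ V := by
      intro y hy hyB
      have hyH : y ≤ H := by
        have : (y:ℝ) ≤ H := by
          calc (y:ℝ) ≤ y * L ^ B := le_mul_of_one_le_right (Nat.cast_nonneg _) (hLp _)
            _ ≤ H := hyB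
        exact_mod_cast this
      have h12y : 6 * 2 ≤ y := by
        have : (12:ℝ) ≤ y := h12.trans hy
        have : 12 ≤ y := by exact_mod_cast this
        omega
      have hM := hMlow y hyH h12y
      obtain ⟨-, hrel⟩ := hg1 0 y (Nat.zero_le _) hy hyB
      have hrel' := hrel hnf
      have hpa0 : pa (pol (vec t)) 0 = 0 := by unfold pa; simp
      rw [hpa0, la_zero, sub_zero, sub_zero] at hrel'
      set K1 : ℕ := 2 * H / ((vec t) (Fin.last 2)).toNat with hK1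
      have hlast : (vec t) (Fin.last 2) = t.1 := rfl
      have hcv := abs_conv (pol (vec t)) y K1 (fun k hk _ => eval_nonneg (by norm_num) hvb hk)
      have hK1le : (K1:ℝ) ≤ 2 * L ^ (U + 2) := by
        have h3 : (K1:ℝ) ≤ ((2 * H : ℕ) : ℝ) / (((vec t) (Fin.last 2)).toNat : ℝ) := Nat.cast_div_le
        rw [hlast] at h3
        have h4 : ((t.1.toNat : ℕ) : ℝ) = (t.1 : ℝ) := by
          have : ((t.1.toNat : ℕ) : ℤ) = t.1 := Int.toNat_of_nonneg (by omega)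
          exact_mod_cast this
        rw [h4] at h3
        refine h3.trans ?_
        have h5 : (0:ℝ) < t.1 := by exact_mod_cast (by omega : 0 < t.1)
        rw [div_le_iff₀ h5]
        push_cast
        linarith
      refine final_ineq L (SS z (pol (vec t))) K (pv (pol (vec t)) y) (pa (pol (vec t)) y)
        (la (pol (vec t)) y) (lF (pol (vec t)) y) K1 y U V hL16 hS16 hSup.2 hK0 hSd ?_ hcv.1 hcv.2.1 hcv.2.2
        (Nat.cast_nonneg _) hK1le hM (la_bounds _ _).1 (hLε.trans hy)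
      refine hrel'.trans ?_
      apply div_le_div_of_nonneg_left (mul_nonneg hSup.1 (la_bounds _ _).1) (hLp0 _)
      exact pow_le_pow_right₀ hL1 (by omega)
    have hK8 : 8 / L ≤ 2 * K ∧ 2 * K ≤ 2 * L := by
      have hθ : 1 / L ^ (V + 5) ≤ 1 / 16 := by
        apply one_div_le_one_div_of_le (by norm_num)
        calc (16:ℝ) ≤ L := hL16
          _ = L ^ 1 := (pow_one L).symm
          _ ≤ L ^ (V + 5) := pow_le_pow_right₀ hL1 (by omega)
      have hθ0 : 0 < 1 / L ^ (V + 5) := by positivity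
      have hb : 2 * (1 / L ^ (V + 5)) * (2 * K) ≤ 2 * K / 8 := by nlinarith
      have h3 := abs_le.1 hSd
      constructor
      · have : 8 / L = 16 / L / 2 := by ring
        rw [this]; linarith
      · linarith [hSup.2]
    exact ⟨haL, K, hK0, hKlim, hK8.1, hK8.2, fun y hy hyB => ⟨(key y hy hyB).1, (key y hy hyB).2.2.2⟩⟩

end Pool.Agent.N718.HLQ
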