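import Pool.Agent.N718.HLQ2

set_option autoImplicit false

/-!
The Hardy-Littlewood formula for almost all quadratic polynomials of height at most `H`: values up to `x`.
-/

namespace Pool.Agent.N718.HLQ

open Finset Polynomial Filter Topology
open Pool.Agent.H442R2.EHI (evt_log_pow evt_log_ge)
open Pool.Agent.H300R2.BH
open Pool.Agent.H300R2.FB
open Pool.Agent.TH892
open Pool.Agent.W468.ConjF (CF Admissible CF_pos CF_tendsto nr nr_two nr_none nr_lin nr_odd euler_eq)
open Pool.Agent.N718.BHB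

lemma sum_inv_sqrt (n : ℕ) : ∑ m ∈ Icc 1 n, 1 / Real.sqrt m ≤ 2 * Real.sqrt n := by
  induction n with
  | zero => simp
  | succ n ih =>
    rw [Finset.sum_Icc_succ_top (by omega)]
    have h1 : 0 < Real.sqrt ((n + 1 : ℕ) : ℝ) := Real.sqrt_pos.2 (by positivity)
    have h2 : Real.sqrt (n : ℝ) ≤ Real.sqrt ((n + 1 : ℕ) : ℝ) := Real.sqrt_le_sqrt (by push_cast; linarith)
    have h3 : Real.sqrt ((n + 1 : ℕ) : ℝ) ^ 2 = n + 1 := by
      rw [Real.sq_sqrt (by positivity)]; push_cast; ring
    have h4 : Real.sqrt (n : ℝ) ^ 2 = n := Real.sq_sqrt (by positivity)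
    have h5 : 1 / Real.sqrt ((n + 1 : ℕ) : ℝ) ≤ 2 * (Real.sqrt ((n + 1 : ℕ) : ℝ) - Real.sqrt n) := by
      rw [div_le_iff₀ h1]
      nlinarith [Real.sqrt_nonneg (n : ℝ)]
    linarith

lemma sum_log_ratio (Y : ℝ) (hY : 0 < Y) (n : ℕ) (hn : (n : ℝ) ≤ Y) :
    ∑ m ∈ Icc 1 n, Real.log (Y / m) ≤ 4 * Y := by
  have h1 : ∀ m ∈ Icc 1 n, Real.log (Y / m) ≤ 2 * Real.sqrt Y * (1 / Real.sqrt m) := by
    intro m hm
    rw [mem_Icc] at hm
    have hm0 : (0:ℝ) < m := by exact_mod_cast (by omega : 0 < m)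
    have h2 : 0 < Real.sqrt (Y / m) := Real.sqrt_pos.2 (by positivity)
    have h3 : Real.log (Y / m) = 2 * Real.log (Real.sqrt (Y / m)) := by
      rw [Real.log_sqrt (by positivity)]
      ring
    have h4 := Real.log_le_sub_one_of_pos h2
    rw [h3]
    calc 2 * Real.log (Real.sqrt (Y / m)) ≤ 2 * Real.sqrt (Y / m) := by linarith
      _ = _ := by rw [Real.sqrt_div hY.le]; ring
  calc ∑ m ∈ Icc 1 n, Real.log (Y / m) ≤ ∑ m ∈ Icc 1 n, 2 * Real.sqrt Y * (1 / Real.sqrt m) := sum_le_sum h1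
    _ = 2 * Real.sqrt Y * ∑ m ∈ Icc 1 n, 1 / Real.sqrt m := by rw [mul_sum]
    _ ≤ 2 * Real.sqrt Y * (2 * Real.sqrt n) := by gcongr; exact sum_inv_sqrt n
    _ ≤ 2 * Real.sqrt Y * (2 * Real.sqrt Y) := by gcongr
    _ = 4 * (Real.sqrt Y * Real.sqrt Y) := by ring
    _ = 4 * Y := by rw [Real.mul_self_sqrt hY.le]

/-- the sum of `1 / log f(m)`: `g m` is the value, `T` bounds the other coefficients in terms of the first -/
lemma sum_approx (L x a T Y : ℝ) (g : ℕ → ℝ) (hL : 100 ≤ L) (hlL : 4 * Real.log L + 1 ≤ L / 2) (ha : 0 < a)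
    (hx : x = a * Y ^ 2) (hxL : L ≤ Real.log x) (hx3 : Real.log x ≤ 3 * L) (hT : 1 ≤ T)
    (hY : 4 * T * L ^ 2 ≤ Y) (hg : ∀ m : ℕ, 1 ≤ m → |g m - a * m ^ 2| ≤ a * (T * m + T)) (n : ℕ)
    (hn : (n : ℝ) ≤ Y) (hn1 : Y ≤ n + 1) :
    |∑ m ∈ (Icc 1 n).filter (fun m => 2 ≤ g m), 1 / Real.log (g m) - Y / Real.log x| ≤
      28 * (Y / Real.log x / L) := by
  have hL0 : 0 < L := by linarith
  have hlx0 : 0 < Real.log x := by linarith
  have hY0 : 0 < Y := lt_of_lt_of_le (by positivity) hY
  have hYL : L ≤ Y := by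
    calc L ≤ 4 * T * L ^ 2 := by nlinarith
      _ ≤ Y := hY
  have hxpos : 0 < x := by rw [hx]; positivity
  set Y0 := Y / L ^ 2 with hY0d
  have hY0T : 4 * T ≤ Y0 := by rw [hY0d, le_div_iff₀ (by positivity)]; exact hY
  -- all terms
  have hterm : ∀ m ∈ Icc 1 n, |(if 2 ≤ g m then 1 / Real.log (g m) else 0) - 1 / Real.log x| ≤
      (if (m : ℝ) ≤ Y0 then 3 else 0) + (2 * Real.log (Y / m) + 1) * (2 / (L * Real.log x)) := by
    intro m hm
    rw [mem_Icc] at hm
    have hm1 : (1:ℝ) ≤ m := by exact_mod_cast hm.1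
    have hm0 : (0:ℝ) < m := by linarith
    have hmY : (m:ℝ) ≤ Y := le_trans (by exact_mod_cast hm.2) hn
    have hlr : 0 ≤ Real.log (Y / m) := Real.log_nonneg (by rw [le_div_iff₀ hm0, one_mul]; exact hmY)
    by_cases hmY0 : (m:ℝ) ≤ Y0
    · rw [if_pos hmY0]
      have h1 : |(if 2 ≤ g m then 1 / Real.log (g m) else 0) - 1 / Real.log x| ≤ 3 := by
        have h2 : 0 ≤ 1 / Real.log x ∧ 1 / Real.log x ≤ 1 := by
          constructor
          · positivity
          · rw [div_le_one hlx0]; linarith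
        have h3 : 0 ≤ (if 2 ≤ g m then 1 / Real.log (g m) else 0) ∧
            (if 2 ≤ g m then 1 / Real.log (g m) else 0) ≤ 2 := by
          split_ifs with h4
          · have h5 : Real.log 2 ≤ Real.log (g m) := Real.log_le_log (by norm_num) h4
            have h6 := Real.log_two_gt_d9
            constructor
            · exact div_nonneg zero_le_one (by linarith)
            · rw [div_le_iff₀ (by linarith)]; linarith
          · constructor <;> norm_num
        rw [abs_le]
        constructor <;> linarith [h2.1, h2.2, h3.1, h3.2]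
      have h7 : 0 ≤ (2 * Real.log (Y / m) + 1) * (2 / (L * Real.log x)) := by positivity
      linarith
    · rw [if_neg hmY0, zero_add]
      push Not at hmY0
      have h1 := hg m hm.1
      have hm4 : 4 * T ≤ m := hY0T.trans hmY0.le
      have h2 : T * m + T ≤ m ^ 2 / 2 := by nlinarith
      have h3 : |g m - a * m ^ 2| ≤ a * m ^ 2 / 2 := by
        refine h1.trans ?_
        calc a * (T * m + T) ≤ a * ((m:ℝ) ^ 2 / 2) := by gcongr
          _ = _ := by ring
      have h4 := abs_le.1 h3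
      have ham0 : 0 < a * (m:ℝ) ^ 2 := by positivity
      have hg1 : a * (m:ℝ) ^ 2 / 2 ≤ g m := by linarith
      have hg2 : g m ≤ 2 * (a * (m:ℝ) ^ 2) := by linarith
      have hg0 : 0 < g m := lt_of_lt_of_le (by positivity) hg1
      have hlog2 := Real.log_two_lt_d9
      have hlog2' : 0 < Real.log 2 := Real.log_pos (by norm_num)
      have h5 : Real.log (a * (m:ℝ) ^ 2) = Real.log x - 2 * Real.log (Y / m) := by
        have e1 : a * (m:ℝ) ^ 2 = x / (Y / m) ^ 2 := by
          rw [hx]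
          field_simp
        rw [e1, Real.log_div hxpos.ne' (by positivity), Real.log_pow]
        push_cast
        ring
      have h6 : Real.log x - 2 * Real.log (Y / m) - Real.log 2 ≤ Real.log (g m) := by
        rw [← h5, ← Real.log_div ham0.ne' (by norm_num)]
        exact Real.log_le_log (by positivity) hg1
      have h7 : Real.log (g m) ≤ Real.log x - 2 * Real.log (Y / m) + Real.log 2 := by
        rw [← h5, add_comm, ← Real.log_mul (by norm_num) ham0.ne']
        exact Real.log_le_log hg0 hg2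
      have h8 : Real.log (Y / m) ≤ 2 * Real.log L := by
        have e1 : Y / m ≤ L ^ 2 := by
          rw [div_le_iff₀ hm0]
          have : Y = Y0 * L ^ 2 := by rw [hY0d]; field_simp
          rw [this]
          nlinarith [sq_nonneg L, hmY0.le]
        calc Real.log (Y / m) ≤ Real.log (L ^ 2) := Real.log_le_log (by positivity) e1
          _ = 2 * Real.log L := by rw [Real.log_pow]; push_cast; ring
      have h9 : L / 2 ≤ Real.log (g m) := by linarith
      have hlg0 : 0 < Real.log (g m) := by linarith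
      have h10 : 2 ≤ g m := by
        have e2 := Real.exp_log hg0
        have e3 := Real.add_one_le_exp (Real.log (g m))
        linarith
      rw [if_pos h10]
      have h11 : 1 / Real.log (g m) - 1 / Real.log x = (Real.log x - Real.log (g m)) / (Real.log (g m) * Real.log x) := by
        field_simp
      rw [h11, abs_div, abs_of_pos (show 0 < Real.log (g m) * Real.log x by positivity)]
      have h12 : |Real.log x - Real.log (g m)| ≤ 2 * Real.log (Y / m) + 1 := by
        rw [abs_le]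
        constructor <;> linarith
      calc |Real.log x - Real.log (g m)| / (Real.log (g m) * Real.log x)
          ≤ (2 * Real.log (Y / m) + 1) / (L / 2 * Real.log x) := by
            apply div_le_div₀ (by positivity) h12 (by positivity)
            gcongr
        _ = _ := by field_simp
  have hs1 : ∑ m ∈ Icc 1 n, (if (m : ℝ) ≤ Y0 then (3:ℝ) else 0) ≤ 3 * Y0 := by
    rw [← sum_filter, sum_const, nsmul_eq_mul]
    have h1 : ((Icc 1 n).filter (fun m : ℕ => (m : ℝ) ≤ Y0)).card ≤ ⌊Y0⌋₊ := by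
      calc ((Icc 1 n).filter (fun m : ℕ => (m : ℝ) ≤ Y0)).card ≤ (Icc 1 ⌊Y0⌋₊).card := by
            apply card_le_card
            intro m hm
            rw [mem_filter, mem_Icc] at hm
            rw [mem_Icc]
            exact ⟨hm.1.1, Nat.le_floor hm.2⟩
        _ = ⌊Y0⌋₊ := by simp
    have h2 : (((Icc 1 n).filter (fun m : ℕ => (m : ℝ) ≤ Y0)).card : ℝ) ≤ Y0 := by
      calc (((Icc 1 n).filter (fun m : ℕ => (m : ℝ) ≤ Y0)).card : ℝ) ≤ (⌊Y0⌋₊ : ℝ) := by exact_mod_cast h1
        _ ≤ Y0 := Nat.floor_le (by positivity)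
    linarith
  have hs2 : ∑ m ∈ Icc 1 n, (2 * Real.log (Y / m) + 1) * (2 / (L * Real.log x)) ≤
      (9 * Y) * (2 / (L * Real.log x)) := by
    rw [← sum_mul]
    gcongr
    rw [sum_add_distrib, ← mul_sum, sum_const, nsmul_eq_mul, mul_one, Nat.card_Icc, Nat.add_sub_cancel]
    linarith [sum_log_ratio Y hY0 n hn]
  have hsum : ∑ m ∈ (Icc 1 n).filter (fun m => 2 ≤ g m), 1 / Real.log (g m) =
      ∑ m ∈ Icc 1 n, (if 2 ≤ g m then 1 / Real.log (g m) else 0) := by rw [sum_filter]
  have hconst : ∑ m ∈ Icc 1 n, 1 / Real.log x = n / Real.log x := by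
    rw [sum_const, nsmul_eq_mul, Nat.card_Icc, Nat.add_sub_cancel]; ring
  have h1 : |∑ m ∈ Icc 1 n, (if 2 ≤ g m then 1 / Real.log (g m) else 0) - n / Real.log x| ≤
      3 * Y0 + (9 * Y) * (2 / (L * Real.log x)) := by
    rw [← hconst, ← sum_sub_distrib]
    refine (abs_sum_le_sum_abs _ _).trans ?_
    refine (sum_le_sum hterm).trans ?_
    rw [sum_add_distrib]
    linarith
  have h2 : |(n:ℝ) / Real.log x - Y / Real.log x| ≤ 1 / Real.log x := by
    rw [← sub_div, abs_div, abs_of_pos hlx0]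
    gcongr
    rw [abs_le]
    constructor <;> linarith
  rw [hsum]
  have h3 : ∑ m ∈ Icc 1 n, (if 2 ≤ g m then 1 / Real.log (g m) else 0) - Y / Real.log x =
      (∑ m ∈ Icc 1 n, (if 2 ≤ g m then 1 / Real.log (g m) else 0) - n / Real.log x) +
      (n / Real.log x - Y / Real.log x) := by ring
  rw [h3]
  refine (abs_add_le _ _).trans ?_
  set Q := Y / Real.log x / L with hQ
  have hQ0 : 0 < Q := by positivity
  have e1 : (9 * Y) * (2 / (L * Real.log x)) = 18 * Q := by rw [hQ]; field_simp; ring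
  have e3 : 3 * Y0 ≤ 9 * Q := by
    have h5 : Y / L ^ 2 ≤ 3 * Q := by
      rw [hQ, div_div, ← mul_div_assoc, div_le_div_iff₀ (by positivity) (by positivity)]
      calc Y * (Real.log x * L) ≤ Y * (3 * L * L) := by gcongr
        _ = 3 * Y * L ^ 2 := by ring
    rw [hY0d]
    linarith
  have e4 : 1 / Real.log x ≤ Q := by
    rw [hQ, div_div, div_le_div_iff₀ hlx0 (by positivity)]
    nlinarith
  linarith

end Pool.Agent.N718.HLQ
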