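import Pool.Agent.N718.HLQ3

set_option autoImplicit false

/-!
The Hardy-Littlewood formula for almost all quadratic polynomials of height at most `H`: values up to `x`.
-/

namespace Pool.Agent.N718.HLQ

open Finset Polynomial Filter Topology
open Pool.Agent.H442R2.EHI (evt_log_pow evt_log_ge)
open Pool.Agent.H300R2.BH
open Pool.Agent.H300R2.FB
open Pool.Agent.TH892
open Pool.Agent.W468.ConjF (CF Admissible CF_pos CF_tendsto nr nr_two nr_none nr_lin nr_odd euler_eq)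
open Pool.Agent.N718.BHB

/-- the values -/
def fv (t : ℤ × ℤ × ℤ) (m : ℕ) : ℤ := t.1 * (m : ℤ) ^ 2 + t.2.1 * m + t.2.2

/-- the number of `m ≥ 1` with `f(m)` prime and `f(m) < x` -/
noncomputable def pix (t : ℤ × ℤ × ℤ) (x : ℝ) : ℕ :=
  {m : ℕ | 1 ≤ m ∧ (fv t m).toNat.Prime ∧ ((fv t m : ℤ) : ℝ) < x}.ncard

lemma g_bound {H : ℕ} {t : ℤ × ℤ × ℤ} (ht : t ∈ Tr H) (T : ℝ) (haT : (H:ℝ) ≤ t.1 * T) (m : ℕ) :
    |((fv t m : ℤ) : ℝ) - t.1 * m ^ 2| ≤ t.1 * (T * m + T) := by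
  rw [mem_Tr] at ht
  obtain ⟨-, hb, hc⟩ := ht
  have hb1 : |(t.2.1 : ℝ)| ≤ H := by
    rw [abs_le]; constructor
    · exact_mod_cast hb.1
    · exact_mod_cast hb.2
  have hc1 : |(t.2.2 : ℝ)| ≤ H := by
    rw [abs_le]; constructor
    · exact_mod_cast hc.1
    · exact_mod_cast hc.2
  have e1 : ((fv t m : ℤ) : ℝ) - t.1 * m ^ 2 = t.2.1 * m + t.2.2 := by
    unfold fv; push_cast; ring
  rw [e1]
  have hm0 : (0:ℝ) ≤ m := Nat.cast_nonneg _
  calc |(t.2.1 : ℝ) * m + t.2.2| ≤ |(t.2.1 : ℝ) * m| + |(t.2.2 : ℝ)| := abs_add_le _ _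
    _ = |(t.2.1 : ℝ)| * m + |(t.2.2 : ℝ)| := by rw [abs_mul, abs_of_nonneg hm0]
    _ ≤ H * m + H := by gcongr
    _ ≤ (t.1 * T) * m + t.1 * T := by gcongr
    _ = _ := by ring

lemma count_compare {H : ℕ} {t : ℤ × ℤ × ℤ} (ht : t ∈ Tr H) (T Y x : ℝ) (haT : (H:ℝ) ≤ t.1 * T) (hT : 1 ≤ T)
    (hY : 2 * T + 2 ≤ Y) (hx : x = t.1 * Y ^ 2) :
    |(pix t x : ℝ) - pv (pol (vec t)) ⌊Y⌋₊| ≤ 4 * T + 6 := by
  classical
  have ha1 : 1 ≤ t.1 := by rw [mem_Tr] at ht; exact ht.1.1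
  have ha : (0:ℝ) < t.1 := by exact_mod_cast (by omega : 0 < t.1)
  have hY0 : 0 ≤ Y := by linarith
  set s : ℝ := 2 * T + 2 with hs
  set N : ℕ := ⌊Y + s⌋₊ with hN
  set N0 : ℕ := ⌊Y - s⌋₊ with hN0
  have hA : ∀ m : ℕ, ((fv t m : ℤ) : ℝ) < x → (m:ℝ) < Y + s := by
    intro m hm
    by_contra hcon
    push Not at hcon
    have h1 := (abs_le.1 (g_bound ht T haT m)).1
    have h2 : t.1 * ((m:ℝ) ^ 2 - (T * m + T)) < t.1 * Y ^ 2 := by
      rw [← hx]; linarith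
    have h3 := lt_of_mul_lt_mul_left h2 ha.le
    nlinarith
  have hB : ∀ m : ℕ, x ≤ ((fv t m : ℤ) : ℝ) → Y - s < (m:ℝ) := by
    intro m hm
    by_contra hcon
    push Not at hcon
    have h1 := (abs_le.1 (g_bound ht T haT m)).2
    have h2 : t.1 * Y ^ 2 ≤ t.1 * ((m:ℝ) ^ 2 + (T * m + T)) := by
      rw [← hx]; linarith
    have h3 := le_of_mul_le_mul_left h2 ha
    have hm0 : (0:ℝ) ≤ m := Nat.cast_nonneg _
    have h4 : (m:ℝ) ^ 2 + (T * m + T) ≤ (Y - s) ^ 2 + (T * (Y - s) + T) := by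
      have : (m:ℝ) ^ 2 ≤ (Y - s) ^ 2 := by
        apply pow_le_pow_left₀ hm0 hcon
      nlinarith
    nlinarith
  set F1 : Finset ℕ := (Icc 1 N).filter (fun m => (fv t m).toNat.Prime ∧ ((fv t m : ℤ) : ℝ) < x) with hF1
  set F2 : Finset ℕ := (Icc 1 ⌊Y⌋₊).filter (fun m => (fv t m).toNat.Prime) with hF2
  have e1 : pix t x = F1.card := by
    unfold pix
    rw [← Set.ncard_coe_finset]
    congr 1
    ext m
    simp only [Set.mem_ofPred_eq, hF1, coe_filter, mem_Icc]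
    constructor
    · rintro ⟨h1, h2, h3⟩
      exact ⟨⟨h1, Nat.le_floor (hA m h3).le⟩, h2, h3⟩
    · rintro ⟨⟨h1, -⟩, h2, h3⟩
      exact ⟨h1, h2, h3⟩
  have e2 : pv (pol (vec t)) ⌊Y⌋₊ = F2.card := by
    unfold pv
    rw [hF2]
    congr 2
    apply filter_congr
    intro m _
    rw [eval_vec]
    rfl
  have h12 : F1 ⊆ F2 ∪ Icc N0 N := by
    intro m hm
    rw [hF1, mem_filter, mem_Icc] at hm
    rw [mem_union, hF2, mem_filter, mem_Icc, mem_Icc]
    by_cases h : m ≤ ⌊Y⌋₊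
    · left; exact ⟨⟨hm.1.1, h⟩, hm.2.1⟩
    · right
      refine ⟨?_, hm.1.2⟩
      have : N0 ≤ ⌊Y⌋₊ := Nat.floor_le_floor (by linarith)
      omega
  have h21 : F2 ⊆ F1 ∪ Icc N0 N := by
    intro m hm
    rw [hF2, mem_filter, mem_Icc] at hm
    rw [mem_union, hF1, mem_filter, mem_Icc, mem_Icc]
    have hmN : m ≤ N := hm.1.2.trans (Nat.floor_le_floor (by linarith))
    by_cases h : ((fv t m : ℤ) : ℝ) < x
    · left; exact ⟨⟨hm.1.1, hmN⟩, hm.2, h⟩
    · right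
      push Not at h
      refine ⟨?_, hmN⟩
      have h3 := hB m h
      have : N0 ≤ m := by
        rw [hN0]
        exact Nat.floor_le_of_le h3.le
      exact this
  have hcI : ((Icc N0 N).card : ℝ) ≤ 4 * T + 6 := by
    rw [Nat.card_Icc]
    have h3 : N0 ≤ N + 1 := by
      have : N0 ≤ N := Nat.floor_le_floor (by linarith)
      omega
    rw [Nat.cast_sub h3]
    push_cast
    have h4 : (N:ℝ) ≤ Y + s := Nat.floor_le (by linarith)
    have h5 : Y - s < N0 + 1 := Nat.lt_floor_add_one _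
    linarith
  have h3 := (card_le_card h12).trans (card_union_le _ _)
  have h4 := (card_le_card h21).trans (card_union_le _ _)
  have h5 : (F1.card : ℝ) ≤ F2.card + (Icc N0 N).card := by exact_mod_cast h3
  have h6 : (F2.card : ℝ) ≤ F1.card + (Icc N0 N).card := by exact_mod_cast h4
  rw [e1, e2, abs_le]
  constructor <;> linarith

theorem quad_val (ε : ℝ) (hε : 0 < ε) (U V : ℕ) : ∃ B H0 : ℕ, ∀ H : ℕ, H0 ≤ H →
    ∃ X : Finset (ℤ × ℤ × ℤ), X ⊆ Tr H ∧ (#X : ℝ) ≤ (#(Tr H) : ℝ) / Real.log H ^ U ∧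
    ∀ t ∈ Tr H, t ∉ X → Admissible t.1 t.2.1 t.2.2 →
      ∃ K : ℝ, 0 < K ∧ Tendsto (fun z => CF t.1 t.2.1 t.2.2 z) atTop (𝓝 K) ∧
      (∀ x : ℝ, (H : ℝ) ^ (1 + ε) ≤ x → x * Real.log H ^ B ≤ (H : ℝ) ^ 3 →
        |(pix t x : ℝ) - 2 * K * (Real.sqrt x / Real.sqrt t.1 / Real.log x)| ≤
          30 / Real.log H * (2 * K * (Real.sqrt x / Real.sqrt t.1 / Real.log x))) ∧
      (∀ y : ℕ, (H : ℝ) ^ ε ≤ y → (y : ℝ) * Real.log H ^ B ≤ H →
        |pv (pol (vec t)) y - 2 * K * lF (pol (vec t)) y| ≤ 2 * K * lF (pol (vec t)) y / Real.log H ^ V) := by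
  classical
  obtain ⟨B, x1, h1⟩ := quad_box (ε / 4) (by positivity) U (V + 1)
  have hlogs : ∀ᶠ x : ℕ in atTop, 4 * Real.log (Real.log x) + 1 ≤ Real.log x / 2 := by
    have h1 : (fun t : ℝ => Real.log t) =o[atTop] fun t : ℝ => t := Real.isLittleO_log_id_atTop
    have h2 := h1.bound (show (0:ℝ) < 1 / 16 by norm_num)
    have h3 := (Real.tendsto_log_atTop.comp (tendsto_natCast_atTop_atTop (R := ℝ))).eventually h2
    filter_upwards [h3, evt_log_ge (Real.exp 1), evt_log_ge 100] with x hx hx2 hx3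
    simp only [Function.comp] at hx
    have ht0 : 0 < Real.log x := by linarith
    have hl : 1 ≤ Real.log (Real.log x) := by
      rw [Real.le_log_iff_exp_le ht0]; exact hx2
    rw [Real.norm_of_nonneg (by positivity), Real.norm_of_nonneg ht0.le] at hx
    linarith
  have hev : ∀ᶠ H : ℕ in atTop, x1 ≤ H ∧ 100 ≤ Real.log H ∧ 4 * Real.log (Real.log H) + 1 ≤ Real.log H / 2 ∧
      Real.log H ^ (U + 10) ≤ (H:ℝ) ^ (ε / 4) ∧ (2:ℝ) ≤ (H:ℝ) ^ (ε / 4) ∧ 1 ≤ H := by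
    filter_upwards [eventually_ge_atTop x1, evt_log_ge 100, hlogs, evt_log_pow (U + 10) (ε / 4) (by positivity),
      evt_log_pow 1 (ε / 4) (by positivity), eventually_ge_atTop 1] with H h1 h2 h3 h4 h5 h6
    refine ⟨h1, h2, h3, h4, ?_, h6⟩
    rw [pow_one] at h5
    linarith
  obtain ⟨H0, hH0⟩ := eventually_atTop.mp hev
  refine ⟨2 * B + U + 2, H0, fun H hH => ?_⟩
  obtain ⟨hx1, hL100, hll, hLε, h2ε, hH1⟩ := hH0 H hH
  obtain ⟨X, hXs, hXc, hX⟩ := h1 H hx1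
  refine ⟨X, hXs, hXc, fun t ht htX hadm => ?_⟩
  obtain ⟨haL, K, hK0, hKlim, hK8, hK2, hKy⟩ := hX t ht htX hadm
  set L := Real.log H with hLdef
  have hL0 : 0 < L := by linarith
  have hL1 : 1 ≤ L := by linarith
  have hLp0 : ∀ n : ℕ, 0 < L ^ n := fun n => by positivity
  have hLp : ∀ n : ℕ, 1 ≤ L ^ n := fun n => one_le_pow₀ hL1
  have hHr : (1:ℝ) ≤ H := by exact_mod_cast hH1
  have hHr0 : (0:ℝ) < H := by linarith
  have ha1 : 1 ≤ t.1 := by rw [mem_Tr] at ht; exact ht.1.1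
  have haH : t.1 ≤ H := by rw [mem_Tr] at ht; exact ht.1.2
  have ha : (0:ℝ) < t.1 := by exact_mod_cast (by omega : 0 < t.1)
  have haHr : (t.1:ℝ) ≤ H := by exact_mod_cast haH
  refine ⟨K, hK0, hKlim, ?_, ?_⟩
  · intro x hx hxB
    set Y := Real.sqrt (x / t.1) with hYd
    have hx0 : 0 < x := lt_of_lt_of_le (by positivity) hx
    have hxa0 : 0 < x / t.1 := by positivity
    have hY2 : Y ^ 2 = x / t.1 := Real.sq_sqrt hxa0.le
    have hxY : x = t.1 * Y ^ 2 := by rw [hY2]; field_simp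
    have hYlow : (H:ℝ) ^ (ε / 2) ≤ Y := by
      apply Real.le_sqrt_of_sq_le
      rw [le_div_iff₀ ha, ← Real.rpow_natCast, ← Real.rpow_mul hHr0.le]
      have e1 : ε / 2 * ((2:ℕ):ℝ) = ε := by push_cast; ring
      rw [e1]
      calc (H:ℝ) ^ ε * t.1 ≤ (H:ℝ) ^ ε * H := by gcongr
        _ = (H:ℝ) ^ (1 + ε) := by rw [Real.rpow_add hHr0, Real.rpow_one]; ring
        _ ≤ x := hx
    have hHε : (H:ℝ) ^ (ε / 2) = (H:ℝ) ^ (ε / 4) * (H:ℝ) ^ (ε / 4) := by
      rw [← Real.rpow_add hHr0]; congr 1; ring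
    have hYup : Y * L ^ B ≤ H := by
      have h3 : (Y * L ^ B) ^ 2 ≤ (H:ℝ) ^ 2 := by
        rw [mul_pow, hY2, div_mul_eq_mul_div, div_le_iff₀ ha]
        have h4 : x * (L ^ B) ^ 2 * L ^ (U + 2) ≤ (H:ℝ) ^ 3 := by
          calc x * (L ^ B) ^ 2 * L ^ (U + 2) = x * L ^ (2 * B + U + 2) := by ring
            _ ≤ _ := hxB
        have h5 : (H:ℝ) ^ 3 ≤ (H:ℝ) ^ 2 * (t.1 * L ^ (U + 2)) := by
          calc (H:ℝ) ^ 3 = (H:ℝ) ^ 2 * H := by ring
            _ ≤ _ := by gcongr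
        have h6 : x * (L ^ B) ^ 2 * L ^ (U + 2) ≤ (H:ℝ) ^ 2 * t.1 * L ^ (U + 2) := by
          calc _ ≤ (H:ℝ) ^ 3 := h4
            _ ≤ _ := h5
            _ = _ := by ring
        exact le_of_mul_le_mul_right h6 (hLp0 _)
      exact (pow_le_pow_iff_left₀ (by positivity) hHr0.le (by norm_num)).1 h3
    have hY0 : 0 < Y := lt_of_lt_of_le (by positivity) hYlow
    set n := ⌊Y⌋₊ with hn
    have hnY : (n:ℝ) ≤ Y := Nat.floor_le hY0.le
    have hYn : Y < n + 1 := Nat.lt_floor_add_one _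
    have hHe1 : (1:ℝ) ≤ (H:ℝ) ^ (ε / 4) := by linarith
    have hnlow : (H:ℝ) ^ (ε / 4) ≤ n := by
      rw [hHε] at hYlow
      nlinarith
    have hnup : (n:ℝ) * L ^ B ≤ H := (mul_le_mul_of_nonneg_right hnY (hLp0 _).le).trans hYup
    obtain ⟨-, hmain⟩ := hKy n hnlow hnup
    set T := L ^ (U + 2) with hT
    have hT1 : 1 ≤ T := hLp _
    have hYT : L ^ (U + 10) ≤ Y := by
      calc L ^ (U + 10) ≤ (H:ℝ) ^ (ε / 4) := hLε
        _ ≤ (H:ℝ) ^ (ε / 4) * (H:ℝ) ^ (ε / 4) := le_mul_of_one_le_right (by positivity) hHe1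
        _ = (H:ℝ) ^ (ε / 2) := hHε.symm
        _ ≤ Y := hYlow
    have hT8 : T * L ^ 8 = L ^ (U + 10) := by rw [hT, ← pow_add]
    have hL2 : (100:ℝ) * L ≤ L ^ 2 := by nlinarith
    have hL3 : (100:ℝ) * L ^ 2 ≤ L ^ 3 := by nlinarith [hLp0 2]
    have hYT1 : 4 * T * L ^ 2 ≤ Y := by
      refine le_trans ?_ hYT
      rw [← hT8]
      have h8 : 4 * L ^ 2 ≤ L ^ 8 := by
        calc 4 * L ^ 2 ≤ L ^ 3 := by nlinarith [hLp0 2]
          _ ≤ L ^ 8 := pow_le_pow_right₀ hL1 (by omega)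
      calc 4 * T * L ^ 2 = T * (4 * L ^ 2) := by ring
        _ ≤ T * L ^ 8 := by gcongr
    have hYT2 : 2 * T + 2 ≤ Y := by
      refine le_trans ?_ hYT1
      have : 1 ≤ L ^ 2 := hLp 2
      nlinarith
    have hcc := count_compare ht T Y x haL hT1 hYT2 hxY
    rw [← hn] at hcc
    have hlogx : L ≤ Real.log x := by
      have h3 : (H:ℝ) ≤ x := by
        refine le_trans ?_ hx
        calc (H:ℝ) = (H:ℝ) ^ (1:ℝ) := (Real.rpow_one _).symm
          _ ≤ (H:ℝ) ^ (1 + ε) := Real.rpow_le_rpow_of_exponent_le hHr (by linarith)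
      exact Real.log_le_log hHr0 h3
    have hlogx3 : Real.log x ≤ 3 * L := by
      have h3 : x ≤ (H:ℝ) ^ 3 := le_trans (le_mul_of_one_le_right hx0.le (hLp _)) hxB
      calc Real.log x ≤ Real.log ((H:ℝ) ^ 3) := Real.log_le_log hx0 h3
        _ = 3 * L := by rw [Real.log_pow]; push_cast; ring
    have happ := sum_approx L x t.1 T Y (fun m => ((fv t m : ℤ) : ℝ)) hL100 hll ha hxY hlogx hlogx3 hT1 hYT1
      (fun m _ => g_bound ht T haL m) n hnY hYn.le
    have hlFe : lF (pol (vec t)) n = ∑ m ∈ (Icc 1 n).filter (fun m => (2:ℝ) ≤ ((fv t m : ℤ) : ℝ)),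
        1 / Real.log ((fv t m : ℤ) : ℝ) := by
      unfold lF
      have e1 : ∀ k : ℕ, (pol (vec t)).eval (k : ℤ) = fv t k := fun k => by rw [eval_vec]; rfl
      simp only [e1]
      congr 1
      apply filter_congr
      intro m _
      norm_cast
    rw [← hlFe] at happ
    have hsq : Real.sqrt x / Real.sqrt t.1 = Y := by rw [hYd, Real.sqrt_div hx0.le]
    rw [hsq]
    have hlx0 : 0 < Real.log x := by linarith
    set Q := Y / Real.log x / L with hQ
    have hQ0 : 0 < Q := by positivity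
    have hYQ : Y / Real.log x = L * Q := by rw [hQ]; field_simp
    rw [hYQ] at happ ⊢
    have happ' := abs_le.1 happ
    set M := 2 * K with hM
    have hM0 : 0 < M := by positivity
    set lf := lF (pol (vec t)) n with hlf
    have hlf0 : 0 ≤ lf := by nlinarith
    have hlfQ : lf ≤ L * Q + 28 * Q := by linarith
    have hmain' : |pv (pol (vec t)) n - M * lf| ≤ M * lf / L := by
      refine hmain.trans ?_
      apply div_le_div_of_nonneg_left (by positivity) hL0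
      calc L = L ^ 1 := (pow_one L).symm
        _ ≤ L ^ (V + 1) := pow_le_pow_right₀ hL1 (by omega)
    have hMlf : M * lf / L ≤ M * Q * (1 + 28 / 100) := by
      rw [div_le_iff₀ hL0]
      calc M * lf ≤ M * (L * Q + 28 * Q) := by gcongr
        _ ≤ M * Q * (1 + 28 / 100) * L := by
            have : M * Q * 28 ≤ M * Q * (28 / 100) * L := by
              have h9 : 0 ≤ M * Q := by positivity
              nlinarith
            nlinarith
    have hsmall : 4 * T + 6 ≤ M * Q * (1 / 2) := by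
      have h3 : 8 / L * (Y / (3 * L) / L) ≤ M * Q := by
        rw [hQ]
        gcongr
      have h4 : 8 / L * (Y / (3 * L) / L) = 8 / 3 * Y / L ^ 3 := by field_simp
      have h5 : T * L ^ 5 ≤ Y / L ^ 3 := by
        rw [le_div_iff₀ (hLp0 _)]
        calc T * L ^ 5 * L ^ 3 = T * L ^ 8 := by ring
          _ = L ^ (U + 10) := hT8
          _ ≤ Y := hYT
      have h6 : 100 * T ≤ T * L ^ 5 := by
        have : (100:ℝ) ≤ L ^ 5 := by
          calc (100:ℝ) ≤ L := hL100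
            _ = L ^ 1 := (pow_one L).symm
            _ ≤ L ^ 5 := pow_le_pow_right₀ hL1 (by omega)
        nlinarith
      have h7 : 8 / 3 * Y / L ^ 3 = 8 / 3 * (Y / L ^ 3) := by ring
      rw [h4, h7] at h3
      linarith
    have hfin : (pix t x : ℝ) - M * (L * Q) = ((pix t x : ℝ) - pv (pol (vec t)) n) +
        (pv (pol (vec t)) n - M * lf) + M * (lf - L * Q) := by ring
    rw [hfin]
    have hlast : |M * (lf - L * Q)| ≤ M * (28 * Q) := by
      rw [abs_mul, abs_of_pos hM0]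
      gcongr
    calc _ ≤ |(pix t x : ℝ) - pv (pol (vec t)) n| + |pv (pol (vec t)) n - M * lf| + |M * (lf - L * Q)| := by
          refine (abs_add_le _ _).trans ?_
          gcongr
          exact abs_add_le _ _
      _ ≤ (4 * T + 6) + M * lf / L + M * (28 * Q) := by gcongr
      _ ≤ M * Q * (1 / 2) + M * Q * (1 + 28 / 100) + M * (28 * Q) := by gcongr
      _ ≤ 30 * (M * Q) := by
          have : 0 ≤ M * Q := by positivity
          linarith
      _ = 30 / L * (M * (L * Q)) := by field_simp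
  · intro y hy hyB
    have hy1 : (H:ℝ) ^ (ε / 4) ≤ y := le_trans (Real.rpow_le_rpow_of_exponent_le hHr (by linarith)) hy
    have hy2 : (y:ℝ) * L ^ B ≤ H := by
      refine le_trans ?_ hyB
      have h9 : L ^ B ≤ L ^ (2 * B + U + 2) := pow_le_pow_right₀ hL1 (by omega)
      exact mul_le_mul_of_nonneg_left h9 (Nat.cast_nonneg _)
    obtain ⟨h3, h4⟩ := hKy y hy1 hy2
    refine h4.trans ?_
    have h5 : 0 ≤ 2 * K * lF (pol (vec t)) y := le_trans (by positivity) h3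
    apply div_le_div_of_nonneg_left h5 (hLp0 _)
    exact pow_le_pow_right₀ hL1 (by omega)

end Pool.Agent.N718.HLQ
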